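import Pool.Agent.Helper62.NT.Goals

/-!
Packet NT-NOG of PROJECT NT (MP_8ff381_an): no countably branching tree of large depth in the finitely
supported sequences with the seminorm of James (from VBAS, ULT, LSUM, USUM, NUM).
-/

set_option autoImplicit false

noncomputable section

namespace Pool.Agent.Helper30.NT.NOG

open Filter Topology Pool.Agent.Helper62.NT

theorem VB_mono {a : ℕ → ℝ} {C C' : ℝ} (h : VB a C) (hC : C ≤ C') : VB a C' :=
  fun n p hp => (h n p hp).trans hC

theorem VB_sub {a b : ℕ → ℝ} {C : ℝ} (ha : VB a C) (hb : VB b C) :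
    VB (fun t => a t - b t) (4 * C) := by
  intro n p hp
  have h1 := ha n p hp
  have h2 := hb n p hp
  have h3 : qs (fun t => a t - b t) n p ≤ 2 * qs a n p + 2 * qs b n p := by
    unfold qs
    rw [Finset.mul_sum, Finset.mul_sum, ← Finset.sum_add_distrib]
    refine Finset.sum_le_sum fun i _ => ?_
    have h4 := sq_nonneg ((a (p (i + 1)) - a (p i)) + (b (p (i + 1)) - b (p i)))
    nlinarith [h4]
  linarith

theorem VB_zero : VB (fun _ => (0 : ℝ)) 0 := by
  intro n p _
  simp [qs]

theorem ulim_eq {α : Type} {U : Ultrafilter α} {φ : α → ℝ} {l : ℝ}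
    (h : Tendsto φ (U : Filter α) (𝓝 l)) : ulim U φ = l :=
  h.limUnder_eq

theorem ulim_const {α : Type} (U : Ultrafilter α) (l : ℝ) : ulim U (fun _ => l) = l :=
  ulim_eq tendsto_const_nhds

theorem PL_tail (G : List ℕ → ℕ → ℝ) (r : ℕ) : ∀ (u : List ℕ) (t : ℕ),
    PL (fun v => G v.tail) (r + 1) u t = PL G r u t := by
  induction r with
  | zero =>
    intro u t
    show ulim UU (fun n => G (n :: u).tail t) = G u t
    exact ulim_const UU (G u t)
  | succ r ih =>
    intro u t
    show ulim UU (fun n => PL (fun v => G v.tail) (r + 1) (n :: u) t) = ulim UU fun n => PL G r (n :: u) t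
    congr 1
    funext n
    exact ih (n :: u) t

theorem PL_sub (hU : S_ULT) (G H : List ℕ → ℕ → ℝ) (hG : GB G) (hH : GB H)
    (hGH : GB (fun v s => G v s - H v s)) (r : ℕ) : ∀ (u : List ℕ) (t : ℕ),
    PL (fun v s => G v s - H v s) r u t = PL G r u t - PL H r u t := by
  obtain ⟨_, _, _, _, _, _, u7⟩ := hU
  obtain ⟨R1, h1⟩ := hG
  obtain ⟨R2, h2⟩ := hH
  obtain ⟨R3, h3⟩ := hGH
  induction r with
  | zero => intro u t; rfl
  | succ r ih =>
    intro u t
    have e1 := (u7 G R1 h1 r u).2.2 t
    have e2 := (u7 H R2 h2 r u).2.2 t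
    have e3 := (u7 _ R3 h3 r u).2.2 t
    have e4 := e1.sub e2
    refine tendsto_nhds_unique e3 ?_
    refine e4.congr fun n => ?_
    exact (ih (n :: u) t).symm

theorem GB_tail {G : List ℕ → ℕ → ℝ} (hG : GB G) : GB (fun v => G v.tail) := by
  obtain ⟨R, h⟩ := hG
  exact ⟨R, fun u => h u.tail⟩

theorem GB_sub {G H : List ℕ → ℕ → ℝ} (hG : GB G) (hH : GB H) :
    GB (fun v s => G v s - H v s) := by
  obtain ⟨R1, h1⟩ := hG
  obtain ⟨R2, h2⟩ := hH
  have p1 : 0 ≤ R1 := (abs_nonneg _).trans ((h1 []).2 0)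
  have p2 : 0 ≤ R2 := (abs_nonneg _).trans ((h2 []).2 0)
  refine ⟨4 * (R1 + R2), fun u => ⟨VB_sub (VB_mono (h1 u).1 (by linarith))
    (VB_mono (h2 u).1 (by linarith)), fun t => ?_⟩⟩
  have := abs_sub (G u t) (H u t)
  have q1 := (h1 u).2 t
  have q2 := (h2 u).2 t
  linarith

/-- The coefficients. -/
def bb (G : List ℕ → ℕ → ℝ) (m i : ℕ) (u : List ℕ) (t : ℕ) : ℝ := if i ≤ m then Dl G m i u t else 0

/-- The numbers of NUM. -/
def ww (G : List ℕ → ℕ → ℝ) (i m m' : ℕ) : ℝ :=
  ulim (UN i) fun u => V (fun t => bb G m' i u t - bb G m i u t)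

theorem bb_VB (hU : S_ULT) {G : List ℕ → ℕ → ℝ} {R : ℝ} (hG : ∀ u, VB (G u) R ∧ ∀ t, |G u t| ≤ R)
    (m i : ℕ) (u : List ℕ) : VB (fun t => bb G m i u t) (4 * R) := by
  obtain ⟨_, _, _, _, _, _, u7⟩ := hU
  have pR : 0 ≤ R := (abs_nonneg _).trans ((hG []).2 0)
  unfold bb
  by_cases h : i ≤ m
  · simp only [h, if_true]
    exact VB_sub (u7 G R hG _ _).1 (u7 G R hG _ _).1
  · simp only [h, if_false]
    exact VB_mono VB_zero (by linarith)

theorem Vbb (hV : S_VBAS) (hU : S_ULT) {G : List ℕ → ℕ → ℝ} {R : ℝ}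
    (hG : ∀ u, VB (G u) R ∧ ∀ t, |G u t| ≤ R) (m m' i : ℕ) (u : List ℕ) :
    |V (fun t => bb G m' i u t - bb G m i u t)| ≤ 4 * Real.sqrt R := by
  obtain ⟨v0, vq, vC, -⟩ := hV
  have pR : 0 ≤ R := (abs_nonneg _).trans ((hG []).2 0)
  rw [abs_of_nonneg (v0 _)]
  refine vC _ _ (by positivity) ?_
  refine VB_mono (VB_sub (bb_VB hU hG m' i u) (bb_VB hU hG m i u)) ?_
  rw [mul_pow, Real.sq_sqrt pR]
  linarith

theorem ww_tendsto (hV : S_VBAS) (hU : S_ULT) {G : List ℕ → ℕ → ℝ} {R : ℝ}
    (hG : ∀ u, VB (G u) R ∧ ∀ t, |G u t| ≤ R) (i m m' : ℕ) :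
    Tendsto (fun u => V (fun t => bb G m' i u t - bb G m i u t)) (UN i : Filter (List ℕ))
      (𝓝 (ww G i m m')) :=
  (hU.1 _ (UN i) _ _ (fun u => Vbb hV hU hG m m' i u)).1

theorem t (hV : S_VBAS) (hU : S_ULT) (hL : S_LSUM) (hS : S_USUM) (hN : S_NUM) : S_NOG := by
  intro D c hc
  -- choice of `N`
  set θ : ℝ := c / Real.sqrt 8 with hθ
  have h8 : (Real.sqrt 8) ^ 2 = 8 := Real.sq_sqrt (by norm_num)
  have hθ2 : θ ^ 2 = c ^ 2 / 8 := by rw [hθ, div_pow, h8]
  obtain ⟨s, hs⟩ : ∃ s : ℕ, 4 * D ^ 2 < s * θ ^ 2 := by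
    have hp : 0 < θ ^ 2 := by rw [hθ2]; positivity
    obtain ⟨s, hs⟩ := exists_nat_gt (4 * D ^ 2 / θ ^ 2)
    exact ⟨s, by rwa [div_lt_iff₀ hp] at hs⟩
  refine ⟨2 ^ s, ?_⟩
  rintro ⟨g, ga, gb, gc⟩
  obtain ⟨v0, vq, vC, vadd, vsub, vlim, vabs, vinf, vmul, vfin⟩ := id hV
  have hNpos : 0 < 2 ^ s := by positivity
  have hD : 0 ≤ D := (v0 _).trans (gb 0 [] (by simp))
  -- finitely supported differences
  have gsub : ∀ u v, ∃ K, ∀ t, K ≤ t → g u t - g v t = 0 := by
    intro u v
    obtain ⟨K1, h1⟩ := ga u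
    obtain ⟨K2, h2⟩ := ga v
    exact ⟨max K1 K2, fun t ht => by
      rw [h1 t ((le_max_left _ _).trans ht), h2 t ((le_max_right _ _).trans ht), sub_zero]⟩
  have gbv : ∀ u v, BV (fun t => g u t - g v t) := fun u v => by
    obtain ⟨K, hK⟩ := gsub u v
    exact vfin _ K hK
  have hlen : ∀ u : List ℕ, u.length ≤ 2 ^ s → V (fun t => g u t - g [] t) ≤ u.length * D := by
    intro u
    induction u with
    | nil =>
      intro _
      refine (vC _ 0 le_rfl ?_).trans (by simp)
      intro n p _
      simp [qs]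
    | cons n u ih =>
      intro hu
      have hu' : u.length < 2 ^ s := by simpa [Nat.succ_le_iff] using hu
      have h1 := ih hu'.le
      have h2 := gb n u hu'
      have h3 := (vadd _ _ (gbv (n :: u) u) (gbv u [])).2
      have h4 : (fun t => g (n :: u) t - g u t + (g u t - g [] t)) =
          fun t => g (n :: u) t - g [] t := by
        funext t; ring
      rw [h4] at h3
      refine h3.trans ?_
      rw [List.length_cons]
      push_cast
      linarith
  -- the tree with base point
  set G : List ℕ → ℕ → ℝ := fun u t => if u.length ≤ 2 ^ s then g u t - g [] t else 0 with hGdef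
  set W : ℝ := 2 ^ s * D with hW
  have hW0 : 0 ≤ W := by positivity
  have hGV : ∀ u, VB (G u) (W ^ 2) ∧ ∀ t, |G u t| ≤ W := by
    intro u
    by_cases h : u.length ≤ 2 ^ s
    · have e : G u = fun t => g u t - g [] t := by
        funext t
        simp only [hGdef, h, if_true]
      have hVW : V (fun t => g u t - g [] t) ≤ W := by
        refine (hlen u h).trans ?_
        rw [hW]
        refine mul_le_mul_of_nonneg_right ?_ hD
        exact_mod_cast h
      rw [e]
      refine ⟨fun n p hp => (vq _ (gbv u []) n p hp).trans ?_, fun t => ?_⟩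
      · exact pow_le_pow_left₀ (v0 _) hVW 2
      · obtain ⟨K, hK⟩ := gsub u []
        have h5 := vabs _ (gbv u []) t (max K t)
        rw [hK (max K t) (le_max_left _ _), sub_zero] at h5
        exact h5.trans hVW
    · have e : G u = fun _ => 0 := by
        funext t
        simp only [hGdef, h, if_false]
      rw [e]
      exact ⟨VB_mono VB_zero (by positivity), fun t => by simpa using hW0⟩
  set R : ℝ := W ^ 2 + W with hR
  have hG : ∀ u, VB (G u) R ∧ ∀ t, |G u t| ≤ R := fun u =>
    ⟨VB_mono (hGV u).1 (by rw [hR]; linarith), fun t => ((hGV u).2 t).trans (by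
      rw [hR]; nlinarith [sq_nonneg W])⟩
  have hGB : GB G := ⟨R, hG⟩
  have hwt := fun i m m' => ww_tendsto hV hU hG i m m'
  refine hN D θ s (ww G) hs ?_ ?_ ?_ ?_ ?_
  · -- non-negative
    intro i m m'
    exact ge_of_tendsto' (hwt i m m') fun u => v0 _
  · -- triangle inequality
    intro i m m' m'' _ _ _
    refine le_of_tendsto_of_tendsto' (hwt i m m'') ((hwt i m m').add (hwt i m' m'')) fun u => ?_
    have b1 : BV (fun t => bb G m' i u t - bb G m i u t) :=
      ⟨_, VB_sub (bb_VB hU hG m' i u) (bb_VB hU hG m i u)⟩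
    have b2 : BV (fun t => bb G m'' i u t - bb G m' i u t) :=
      ⟨_, VB_sub (bb_VB hU hG m'' i u) (bb_VB hU hG m' i u)⟩
    have h3 := (vadd _ _ b1 b2).2
    have h4 : (fun t => bb G m' i u t - bb G m i u t + (bb G m'' i u t - bb G m' i u t)) =
        fun t => bb G m'' i u t - bb G m i u t := by
      funext t; ring
    rwa [h4] at h3
  · -- zero
    intro i m m' hm hi
    have e : (fun u : List ℕ => V (fun t => bb G m' i u t - bb G m i u t)) = fun _ => 0 := by
      funext u
      have e1 : (fun t => bb G m' i u t - bb G m i u t) = fun _ => (0 : ℝ) := by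
        funext t
        simp only [bb, not_le.mpr hi, not_le.mpr (lt_of_le_of_lt hm hi), if_false, sub_zero]
      rw [e1]
      exact le_antisymm (vC _ 0 le_rfl (VB_mono VB_zero (by norm_num))) (v0 _)
    unfold ww
    rw [e]
    exact ulim_const _ _
  · -- one step: the lower estimate
    intro m hm
    set h : List ℕ → ℕ → ℝ := fun v t => G v t - G v.tail t with hh
    have hGT : GB (fun v => G v.tail) := GB_tail hGB
    have hHB : GB h := GB_sub hGB hGT
    have hPL : ∀ r u t, PL h r u t = PL G r u t - PL (fun v => G v.tail) r u t :=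
      fun r u t => PL_sub hU G (fun v => G v.tail) hGB hGT hHB r u t
    have hDl : ∀ i, 1 ≤ i → i ≤ m + 1 → ∀ u t,
        bb G (m + 1) i u t - bb G m i u t = Dl h (m + 1) i u t := by
      intro i hi1 hi u t
      unfold bb Dl
      rw [if_pos hi, hPL, hPL, PL_tail]
      by_cases him : i ≤ m
      · rw [if_pos him]
        obtain ⟨r, rfl⟩ : ∃ r, m = i + r := ⟨m - i, by omega⟩
        have e1 : i + r + 1 - i = r + 1 := by omega
        have e2 : i + r - i = r := by omega
        rw [e1, e2, PL_tail]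
        ring
      · rw [if_neg him]
        have e1 : i = m + 1 := by omega
        subst e1
        have e2 : m + 1 - (m + 1) = 0 := by omega
        rw [e2]
        show PL G 0 u t - PL G (0 + 1) u.tail t - 0 =
          PL G 0 u t - G u.tail t - (PL G (0 + 1) u.tail t - PL G 0 u.tail t)
        show PL G 0 u t - PL G (0 + 1) u.tail t - 0 =
          PL G 0 u t - G u.tail t - (PL G (0 + 1) u.tail t - G u.tail t)
        ring
    have hLS := hL h (m + 1) D hHB hD (by
      intro u hu
      cases u with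
      | nil => simp at hu
      | cons n u =>
        have hu' : u.length = m := by simpa using hu
        have e : h (n :: u) = fun t => g (n :: u) t - g u t := by
          funext t
          simp only [hh, hGdef, List.tail_cons]
          rw [if_pos (by rw [List.length_cons, hu']; exact hm), if_pos (by rw [hu']; omega)]
          ring
        rw [e]
        exact gb n u (by rw [hu']; omega))
    refine le_trans (le_of_eq ?_) hLS
    have hsub : Finset.Icc 1 (m + 1) ⊆ Finset.Icc 1 (2 ^ s) := Finset.Icc_subset_Icc le_rfl hm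
    rw [← Finset.sum_subset hsub]
    · refine Finset.sum_congr rfl fun i hi => ?_
      rw [Finset.mem_Icc] at hi
      unfold ww
      congr 2
      funext u
      congr 1
      funext t
      exact hDl i hi.1 hi.2 u t
    · intro i hi hi'
      rw [Finset.mem_Icc] at hi hi'
      have hi2 : m + 1 < i := by
        by_contra hcon
        exact hi' ⟨hi.1, by omega⟩
      have e : (fun u : List ℕ => V (fun t => bb G (m + 1) i u t - bb G m i u t)) = fun _ => 0 := by
        funext u
        have e1 : (fun t => bb G (m + 1) i u t - bb G m i u t) = fun _ => (0 : ℝ) := by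
          funext t
          simp only [bb, not_le.mpr hi2, not_le.mpr (lt_trans (Nat.lt_succ_self m) hi2), if_false, sub_zero]
        rw [e1]
        exact le_antisymm (vC _ 0 le_rfl (VB_mono VB_zero (by norm_num))) (v0 _)
      unfold ww
      rw [e, ulim_const]
      norm_num
  · -- the upper estimate
    intro m m' hmm hm'
    have h1 : (0 : ℝ) ≤ (m' : ℝ) - m := by
      rw [sub_nonneg]; exact_mod_cast hmm.le
    have hus := hS G m m' (c * ((m' : ℝ) - m)) hGB hmm (by positivity) (by
      intro x y u n n' hn hxy hu hl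
      have hl1 : x.length + 1 + m = m' := by
        rw [← hl, List.length_append, List.length_cons, hu]; ring
      have hl2 : (y ++ n' :: u).length = m' := by
        rw [List.length_append, List.length_cons, hu, ← hxy]; omega
      have h2 := gc x y u n n' hn hxy (by rw [hl]; exact hm')
      have e : (fun t => G (x ++ n :: u) t - G (y ++ n' :: u) t) =
          fun t => g (x ++ n :: u) t - g (y ++ n' :: u) t := by
        funext t
        simp only [hGdef]
        rw [if_pos (by rw [hl]; exact hm'), if_pos (by rw [hl2]; exact hm')]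
        ring
      rw [e]
      refine le_trans (le_of_eq ?_) h2
      rw [← hl1]
      push_cast
      ring)
    have hsum : ∑ i ∈ Finset.Ioc m m', (ulim (UN i) fun u => V (Dl G m' i u)) ^ 2 =
        ∑ i ∈ Finset.Ioc m m', ww G i m m' ^ 2 := by
      refine Finset.sum_congr rfl fun i hi => ?_
      rw [Finset.mem_Ioc] at hi
      unfold ww
      congr 2
      funext u
      congr 1
      funext t
      simp only [bb, hi.2, not_le.mpr hi.1, if_true, if_false, sub_zero]
    rw [hsum] at hus
    rw [hθ2]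
    nlinarith [hus]

end Pool.Agent.Helper30.NT.NOG
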